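import Mathlib

/-!
# Unramified cohomology of products over finite fields: definitions

`X_1, ..., X_n` are smooth projective geometrically connected varieties over a finite field with `q`
elements; `X_S`, for a set `S` of indices, is the product of the `X_i` with `i` in `S`. `H S` is the
etale motivic cohomology group `H^4(X_S, ℤ(2))` and `CH S` its subgroup `CH^2(X_S)`; by a theorem of
Kahn the quotient is `H^3_nr(X_S, ℚ/ℤ(2))`.
-/

namespace Pool.Agent.Y128.UN

open Polynomial

/-- The unramified cohomology group `H^3_nr(X_S, ℚ/ℤ(2)) = H^4(X_S, ℤ(2)) / CH^2(X_S)`. -/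
abbrev Unramified {n : ℕ} (H : Finset (Fin n) → Type) [∀ S, AddCommGroup (H S)]
    (CH : ∀ S, AddSubgroup (H S)) (S : Finset (Fin n)) : Type :=
  H S ⧸ CH S

/-- The set `S` of factors is linked: there are complex numbers `α i`, for `i` in `S`, with product
`q ^ 2`, such that for all nonempty subsets `T` of `S` the product of the `α i` with `i` in `T` is a root
of `Q T`. (The `α i` are eigenvalues of Frobenius of the `X_i`, the product over `T` is an eigenvalue
on the part of the cohomology of `X_T` which is not divisible by the Lefschetz motive.) -/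
def Linked {n : ℕ} (q : ℕ) (Q : Finset (Fin n) → ℤ[X]) (S : Finset (Fin n)) : Prop :=
  ∃ α : Fin n → ℂ, (∀ T ⊆ S, T.Nonempty → aeval (∏ i ∈ T, α i) (Q T) = 0) ∧
    ∏ i ∈ S, α i = (q : ℂ) ^ 2

/-- The properties of the groups for `n` varieties over a field with `q` elements. `R` is a
commutative ring of correspondences of degree zero (with integral coefficients) of the product `X` of
all `X_i`, which acts on `H^4(X, ℤ(2))` and on `CH^2(X)`; it contains

* the Frobenius endomorphism `F i` of the factor `X_i` (times the identity of the other factors); the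
  product of all of them is the Frobenius endomorphism of `X`, which acts as `q ^ 2`;
* the idempotent `e i`, given by a zero-cycle of degree one on `X_i`, which splits off the unit motive
  of `X_i`; the Frobenius endomorphism acts trivially on it;
* for nonempty sets `T` an operator `b T`, such that a positive multiple `N` of the product of the
  `1 - e i` with `i` in `T` is the sum of `b T` and of an operator with values in `CH^2` (a
  correspondence that factors through a motive divisible by the Lefschetz motive has this property,
  since `H^2(Y, ℤ(1)) = Pic(Y)`).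

The nonzero polynomials `Q T` with integral coefficients satisfy `Q T (∏ F i) * b T = 0`, the
product being over `i` in `T`: if the motives of the `X_i` are finite dimensional then one may take
for `Q T` a multiple of a power of the characteristic polynomial of Frobenius on the part
corresponding to `b T` of the tensor product of the `H^j(X_i)`, `j > 0`. For one element the complex
roots have the absolute values `q ^ (j / 2)` with `j ≥ 1` (Weil conjectures). The groups
`H^4(X, ℤ(2))` have finite torsion subgroups `[m]` and finite quotients modulo `m` (finiteness of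
etale cohomology with finite coefficients). `pull S` is the pull-back along `X → X_S`, and `restr S`
the restriction to `X_S` by means of the zero-cycles of degree one on the other factors. -/
structure IsProductTheory {n : ℕ} (q : ℕ) (H : Finset (Fin n) → Type) [∀ S, AddCommGroup (H S)]
    (CH : ∀ S, AddSubgroup (H S)) (R : Type) [CommRing R] [Module R (H Finset.univ)]
    (F e : Fin n → R) (b : Finset (Fin n) → R) (Q : Finset (Fin n) → ℤ[X])
    (pull : ∀ S, H S →+ H Finset.univ) (restr : ∀ S, H Finset.univ →+ H S) : Prop where
  one_lt : 1 < q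
  torsion_finite : ∀ m : ℕ, 0 < m → {x : H Finset.univ | m • x = 0}.Finite
  quotient_finite : ∀ m : ℕ, 0 < m → ∃ T : Set (H Finset.univ), T.Finite ∧
    ∀ x, ∃ t ∈ T, ∃ y, x = t + m • y
  smul_mem : ∀ (r : R), ∀ x ∈ CH Finset.univ, r • x ∈ CH Finset.univ
  frobenius : ∀ x : H Finset.univ, (∏ i, F i) • x = ((q : R) ^ 2) • x
  idem : ∀ i : Fin n, e i * e i = e i
  frobenius_unit : ∀ (i : Fin n) (x : H Finset.univ), (F i * e i) • x = e i • x
  birational : ∀ T : Finset (Fin n), T.Nonempty → ∃ N : ℕ, 0 < N ∧
    ∀ x : H Finset.univ, ((N : R) * (∏ i ∈ T, (1 - e i)) - b T) • x ∈ CH Finset.univ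
  relation : ∀ T : Finset (Fin n), T.Nonempty → ∀ x : H Finset.univ,
    (aeval (∏ i ∈ T, F i) (Q T) * b T) • x = 0
  Q_ne : ∀ T, Q T ≠ 0
  weights : ∀ (i : Fin n) (α : ℂ), aeval α (Q {i}) = 0 → ∃ j : ℕ, 0 < j ∧ ‖α‖ ^ 2 = (q : ℝ) ^ j
  restr_pull : ∀ S x, restr S (pull S x) = x
  pull_restr : ∀ S x, pull S (restr S x) = (∏ i ∈ Sᶜ, e i) • x
  pull_mem : ∀ S, ∀ x ∈ CH S, pull S x ∈ CH Finset.univ
  restr_mem : ∀ S, ∀ x ∈ CH Finset.univ, restr S x ∈ CH S

end Pool.Agent.Y128.UN
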