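import Mathlib

/-!
# Eigenvalues with given product
-/

namespace Pool.Agent.Y128.UN

open Polynomial

noncomputable section

variable {σ : Type}

/-- If the ideal has no complex zero, and the variables are algebraic modulo it, then it contains an
integer. -/
theorem exists_mem (J : Ideal (MvPolynomial σ ℤ)) (Q : σ → ℤ[X]) (hQ : ∀ i, Q i ≠ 0)
    (hQJ : ∀ i, aeval (MvPolynomial.X i : MvPolynomial σ ℤ) (Q i) ∈ J)
    (h : ¬∃ α : σ → ℂ, ∀ P ∈ J, MvPolynomial.aeval α P = 0) :
    ∃ m : ℕ, 0 < m ∧ (m : MvPolynomial σ ℤ) ∈ J := by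
  by_contra hcon
  push Not at hcon
  apply h
  let M : Submonoid (MvPolynomial σ ℤ) :=
    { carrier := {x | ∃ m : ℕ, 0 < m ∧ x = m}
      one_mem' := ⟨1, Nat.one_pos, by rw [Nat.cast_one]⟩
      mul_mem' := by
        rintro _ _ ⟨a, ha, rfl⟩ ⟨b, hb, rfl⟩
        exact ⟨a * b, Nat.mul_pos ha hb, by rw [Nat.cast_mul]⟩ }
  have hdis : Disjoint (J : Set (MvPolynomial σ ℤ)) M := by
    rw [Set.disjoint_left]
    rintro _ hx ⟨m, hm, rfl⟩
    exact hcon m hm hx
  obtain ⟨P, hP, hJP, hPM⟩ := Ideal.exists_le_prime_disjoint (J) M hdis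
  let D := MvPolynomial σ ℤ ⧸ P
  let κ := FractionRing D
  have hchar : CharZero κ := by
    refine charZero_of_inj_zero fun m hm => ?_
    by_contra hm0
    have h1 : ((m : D) : D) = 0 := by
      have h2 : algebraMap D κ (m : D) = 0 := by rw [map_natCast]; exact hm
      exact (FaithfulSMul.algebraMap_injective D κ) (by rw [h2, map_zero])
    have h3 : Ideal.Quotient.mk P (m : MvPolynomial σ ℤ) = 0 := by
      rw [map_natCast]
      exact h1
    rw [Ideal.Quotient.eq_zero_iff_mem] at h3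
    exact Set.disjoint_left.1 hPM h3 ⟨m, Nat.pos_of_ne_zero hm0, rfl⟩
  let φ : MvPolynomial σ ℤ →+* κ := (algebraMap D κ).comp (Ideal.Quotient.mk P)
  have hφ : ∀ x ∈ J, φ x = 0 := by
    intro x hx
    change algebraMap D κ (Ideal.Quotient.mk P x) = 0
    rw [Ideal.Quotient.eq_zero_iff_mem.2 (hJP hx), map_zero]
  let x : σ → κ := fun i => φ (MvPolynomial.X i)
  have hx : ∀ i, aeval (x i) (Q i) = 0 := by
    intro i
    have h1 : φ (aeval (MvPolynomial.X i : MvPolynomial σ ℤ) (Q i)) = 0 := hφ _ (hQJ i)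
    rw [aeval_def, hom_eval₂] at h1
    rw [aeval_def]
    convert h1 using 2
    exact RingHom.ext_int _ _
  let E := IntermediateField.adjoin ℚ (Set.range x)
  have halg : Algebra.IsAlgebraic ℚ E := by
    refine IntermediateField.isAlgebraic_adjoin ?_
    rintro _ ⟨i, rfl⟩
    rw [← isAlgebraic_iff_isIntegral]
    refine ⟨(Q i).map (algebraMap ℤ ℚ), ?_, ?_⟩
    · intro h0
      apply hQ i
      exact (Polynomial.map_injective _ (FaithfulSMul.algebraMap_injective ℤ ℚ))
        (by rw [h0, Polynomial.map_zero])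
    · rw [aeval_def, eval₂_map]
      have h1 := hx i
      rw [aeval_def] at h1
      have h2 : (algebraMap ℚ κ).comp (algebraMap ℤ ℚ) = algebraMap ℤ κ := RingHom.ext_int _ _
      rw [h2]
      exact h1
  let f : E →ₐ[ℚ] ℂ := IsAlgClosed.lift
  let y : σ → E := fun i => ⟨x i, IntermediateField.subset_adjoin ℚ _ ⟨i, rfl⟩⟩
  refine ⟨fun i => f (y i), fun P hP' => ?_⟩
  have h1 : (algebraMap E κ).comp
      (MvPolynomial.aeval (R := ℤ) y : MvPolynomial σ ℤ →ₐ[ℤ] E).toRingHom = φ := by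
    refine MvPolynomial.ringHom_ext (fun r => ?_) fun i => ?_
    · exact RingHom.congr_fun (RingHom.ext_int (((algebraMap E κ).comp
        (MvPolynomial.aeval (R := ℤ) y : MvPolynomial σ ℤ →ₐ[ℤ] E).toRingHom).comp MvPolynomial.C)
        (φ.comp MvPolynomial.C)) r
    · change algebraMap E κ (MvPolynomial.aeval y (MvPolynomial.X i)) = φ (MvPolynomial.X i)
      rw [MvPolynomial.aeval_X]
      rfl
  have h2 : MvPolynomial.aeval y P = 0 := by
    apply Subtype.ext
    have h3 := RingHom.congr_fun h1 P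
    rw [hφ P hP'] at h3
    exact h3
  have h3 : (f : E →+* ℂ).comp
      (MvPolynomial.aeval (R := ℤ) y : MvPolynomial σ ℤ →ₐ[ℤ] E).toRingHom =
      (MvPolynomial.aeval (R := ℤ) (fun i => f (y i)) : MvPolynomial σ ℤ →ₐ[ℤ] ℂ).toRingHom := by
    refine MvPolynomial.ringHom_ext (fun r => ?_) fun i => ?_
    · exact RingHom.congr_fun (RingHom.ext_int (((f : E →+* ℂ).comp
        (MvPolynomial.aeval (R := ℤ) y : MvPolynomial σ ℤ →ₐ[ℤ] E).toRingHom).comp MvPolynomial.C)
        ((MvPolynomial.aeval (R := ℤ) (fun i => f (y i)) :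
          MvPolynomial σ ℤ →ₐ[ℤ] ℂ).toRingHom.comp MvPolynomial.C)) r
    · change f (MvPolynomial.aeval y (MvPolynomial.X i)) =
        MvPolynomial.aeval (fun i => f (y i)) (MvPolynomial.X i)
      rw [MvPolynomial.aeval_X, MvPolynomial.aeval_X]
  have h4 := RingHom.congr_fun h3 P
  change f (MvPolynomial.aeval y P) = MvPolynomial.aeval (fun i => f (y i)) P at h4
  rw [← h4, h2, map_zero]

/-- The integer kills the vectors with these properties. -/
theorem kill {R L : Type} [CommRing R] [AddCommGroup L] [Module R L] {G : Set (MvPolynomial σ ℤ)}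
    {m : ℕ} (hm : (m : MvPolynomial σ ℤ) ∈ Ideal.span G) (F : σ → R) {w : L}
    (h1 : ∀ P ∈ G, MvPolynomial.aeval F P • w = 0) : m • w = 0 := by
  let φ : MvPolynomial σ ℤ →ₐ[ℤ] R := MvPolynomial.aeval F
  let A : Ideal R := (Submodule.span R {w}).annihilator
  have hA : ∀ r : R, r ∈ A ↔ r • w = 0 := fun r => Submodule.mem_annihilator_span_singleton w r
  have hle : Ideal.span G ≤ A.comap φ.toRingHom := by
    rw [Ideal.span_le]
    intro P hP
    change φ P ∈ A
    rw [hA]
    exact h1 P hP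
  have h3 := hle hm
  change φ (m : MvPolynomial σ ℤ) ∈ A at h3
  rw [hA, map_natCast] at h3
  rw [← Nat.cast_smul_eq_nsmul R]
  exact h3

end

end Pool.Agent.Y128.UN
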