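import Pool.Agent.Y128.UN.Defs
import Pool.Agent.Y128.UN.Lnk

/-!
# Unramified cohomology of products over finite fields
-/

namespace Pool.Agent.Y128.UN

open Polynomial

noncomputable section

variable {n q : ℕ} {H : Finset (Fin n) → Type} [∀ S, AddCommGroup (H S)]
  {CH : ∀ S, AddSubgroup (H S)} {R : Type} [CommRing R] [Module R (H Finset.univ)]
  {F e : Fin n → R} {b : Finset (Fin n) → R} {Q : Finset (Fin n) → ℤ[X]} {pull : ∀ S, H S →+ H Finset.univ}
  {restr : ∀ S, H Finset.univ →+ H S}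

/-- The weights of a linked set. -/
theorem linked_weights (h : IsProductTheory q H CH R F e b Q pull restr) {S : Finset (Fin n)}
    (hS : Linked q Q S) : ∃ j : Fin n → ℕ, (∀ i ∈ S, 0 < j i ∧ ∃ α : ℂ, aeval α (Q {i}) = 0 ∧
      ‖α‖ ^ 2 = (q : ℝ) ^ j i) ∧ ∑ i ∈ S, j i = 4 := by
  classical
  obtain ⟨α, hα, hprod⟩ := hS
  have hα1 : ∀ i ∈ S, aeval (α i) (Q {i}) = 0 := by
    intro i hi
    have h1 := hα {i} (Finset.singleton_subset_iff.2 hi) (Finset.singleton_nonempty i)
    rwa [Finset.prod_singleton] at h1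
  have h1 : ∀ i, ∃ j : ℕ, i ∈ S → 0 < j ∧ ‖α i‖ ^ 2 = (q : ℝ) ^ j := by
    intro i
    by_cases hi : i ∈ S
    · obtain ⟨j, hj⟩ := h.weights i (α i) (hα1 i hi)
      exact ⟨j, fun _ => hj⟩
    · exact ⟨0, fun h => absurd h hi⟩
  choose j hj using h1
  refine ⟨j, fun i hi => ⟨(hj i hi).1, α i, hα1 i hi, (hj i hi).2⟩, ?_⟩
  have h2 := congrArg (fun z : ℂ => ‖z‖ ^ 2) hprod
  simp only [norm_prod, norm_pow, Complex.norm_natCast] at h2
  rw [← Finset.prod_pow, Finset.prod_congr rfl fun i hi => (hj i hi).2, Finset.prod_pow_eq_pow_sum,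
    ← pow_mul] at h2
  exact Nat.pow_right_injective h.one_lt (by exact_mod_cast h2)

theorem card_le (h : IsProductTheory q H CH R F e b Q pull restr) {S : Finset (Fin n)}
    (hS : Linked q Q S) : S.card ≤ 4 := by
  obtain ⟨j, hj, hs⟩ := linked_weights h hS
  have h1 : ∑ i ∈ S, 1 ≤ ∑ i ∈ S, j i := Finset.sum_le_sum fun i hi => (hj i hi).1
  rw [Finset.sum_const, smul_eq_mul, mul_one] at h1
  omega

/-- Products of the multiples of the products of the `1 - e i` and of the `b T`. -/
theorem prod_diff (h : IsProductTheory q H CH R F e b Q pull restr) {N : Finset (Fin n) → ℕ}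
    (U : Finset (Finset (Fin n)))
    (hN : ∀ T ∈ U, ∀ x : H Finset.univ, ((N T : R) * (∏ i ∈ T, (1 - e i)) - b T) • x ∈
      CH Finset.univ) (x : H Finset.univ) :
    ((∏ T ∈ U, ((N T : R) * ∏ i ∈ T, (1 - e i))) - ∏ T ∈ U, b T) • x ∈ CH Finset.univ := by
  classical
  induction U using Finset.induction_on with
  | empty =>
    rw [Finset.prod_empty, Finset.prod_empty, sub_self, zero_smul]
    exact AddSubgroup.zero_mem _
  | insert T U hT ih =>
    have ih' := ih fun T' hT' => hN T' (Finset.mem_insert_of_mem hT')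
    rw [Finset.prod_insert hT, Finset.prod_insert hT]
    set A : R := ∏ T ∈ U, ((N T : R) * ∏ i ∈ T, (1 - e i)) with hA
    have h1 : (N T : R) * (∏ i ∈ T, (1 - e i)) * A - b T * ∏ T ∈ U, b T =
        ((N T : R) * (∏ i ∈ T, (1 - e i)) - b T) * A + b T * (A - ∏ T ∈ U, b T) := by ring
    rw [h1, add_smul, mul_smul, mul_smul]
    exact AddSubgroup.add_mem _ (hN T (Finset.mem_insert_self T U) _) (h.smul_mem _ _ ih')

/-- The product of the idempotents absorbs those of the subsets. -/
theorem absorb (h : IsProductTheory q H CH R F e b Q pull restr) (S : Finset (Fin n))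
    (U : Finset (Finset (Fin n))) (hU : ∀ T ∈ U, T ⊆ S) :
    (∏ T ∈ U, ∏ i ∈ T, (1 - e i)) * ∏ i ∈ S, (1 - e i) = ∏ i ∈ S, (1 - e i) := by
  classical
  have h0 : ∀ i, (1 - e i) * (1 - e i) = 1 - e i := by
    intro i
    linear_combination h.idem i
  have h1 : ∀ T ⊆ S, (∏ i ∈ T, (1 - e i)) * ∏ i ∈ S, (1 - e i) = ∏ i ∈ S, (1 - e i) := by
    intro T hT
    rw [← Finset.prod_sdiff hT]
    have h2 : (∏ i ∈ T, (1 - e i)) * ∏ i ∈ T, (1 - e i) = ∏ i ∈ T, (1 - e i) := by
      rw [← Finset.prod_mul_distrib]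
      exact Finset.prod_congr rfl fun i _ => h0 i
    linear_combination (∏ i ∈ S \ T, (1 - e i)) * h2
  induction U using Finset.induction_on with
  | empty => rw [Finset.prod_empty, one_mul]
  | insert T U hT ih =>
    rw [Finset.prod_insert hT, mul_assoc, ih fun T' hT' => hU T' (Finset.mem_insert_of_mem hT')]
    exact h1 T (hU T (Finset.mem_insert_self T U))

theorem frob_unit (h : IsProductTheory q H CH R F e b Q pull restr) (S : Finset (Fin n))
    (x : H Finset.univ) : ((∏ i ∈ S, F i) * ∏ i ∈ S, e i) • x = (∏ i ∈ S, e i) • x := by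
  classical
  rw [← Finset.prod_mul_distrib]
  induction S using Finset.induction_on with
  | empty => rfl
  | insert i S hi ih =>
    rw [Finset.prod_insert hi, Finset.prod_insert hi, mul_smul, ih, ← mul_smul, mul_comm (F i * e i),
      mul_smul, h.frobenius_unit, ← mul_smul, mul_comm (e i)]

/-- The parts of sets which are not linked. -/
theorem finite_not_linked (h : IsProductTheory q H CH R F e b Q pull restr) {S : Finset (Fin n)}
    (hS : ¬Linked q Q S) :
    (Set.range fun x : H Finset.univ => (QuotientAddGroup.mk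
      (((∏ i ∈ S, (1 - e i)) * ∏ i ∈ Sᶜ, e i) • x) : Unramified H CH Finset.univ)).Finite := by
  classical
  let U : Finset (Finset (Fin n)) := S.powerset.filter fun T => T.Nonempty
  have hU : ∀ T, T ∈ U ↔ T ⊆ S ∧ T.Nonempty := fun T => by
    rw [Finset.mem_filter, Finset.mem_powerset]
  have hNex : ∀ T : Finset (Fin n), ∃ N : ℕ, 0 < N ∧ (T.Nonempty → ∀ x : H Finset.univ,
      ((N : R) * (∏ i ∈ T, (1 - e i)) - b T) • x ∈ CH Finset.univ) := by
    intro T
    by_cases hT : T.Nonempty
    · obtain ⟨N, hN, h1⟩ := h.birational T hT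
      exact ⟨N, hN, fun _ => h1⟩
    · exact ⟨1, Nat.one_pos, fun h => absurd h hT⟩
  choose N hN0 hN using hNex
  let G : Set (MvPolynomial (Fin n) ℤ) :=
    {P | (∃ T ⊆ S, T.Nonempty ∧ P = aeval (∏ i ∈ T, (MvPolynomial.X i : MvPolynomial (Fin n) ℤ))
      (Q T)) ∨ (∃ i ∉ S, P = MvPolynomial.X i) ∨
      P = ∏ i ∈ S, (MvPolynomial.X i : MvPolynomial (Fin n) ℤ) - (q : MvPolynomial (Fin n) ℤ) ^ 2}
  obtain ⟨m, hm0, hm⟩ := exists_mem (Ideal.span G) (fun i => if i ∈ S then Q {i} else X)
    (fun i => by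
      split_ifs
      · exact h.Q_ne _
      · exact X_ne_zero) (fun i => by
      split_ifs with hi
      · refine Ideal.subset_span (Or.inl ⟨{i}, Finset.singleton_subset_iff.2 hi,
          Finset.singleton_nonempty i, ?_⟩)
        rw [Finset.prod_singleton]
      · rw [aeval_X]
        exact Ideal.subset_span (Or.inr (Or.inl ⟨i, hi, rfl⟩))) (by
      rintro ⟨α, hα⟩
      apply hS
      refine ⟨α, fun T hT hT0 => ?_, ?_⟩
      · have h1 := hα _ (Ideal.subset_span (Or.inl ⟨T, hT, hT0, rfl⟩))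
        rw [← Polynomial.aeval_algHom_apply, map_prod] at h1
        simp only [MvPolynomial.aeval_X] at h1
        exact h1
      · have h1 := hα _ (Ideal.subset_span (Or.inr (Or.inr rfl)))
        rw [map_sub, map_prod, map_pow, map_natCast, sub_eq_zero] at h1
        simp only [MvPolynomial.aeval_X] at h1
        exact h1)
  set ε : R := (∏ i ∈ S, (1 - e i)) * ∏ i ∈ Sᶜ, e i with hε
  have hkill : ∀ x : H Finset.univ, m • ((∏ T ∈ U, b T) • ε • x) = 0 := by
    intro x
    refine kill hm (fun i => if i ∈ S then F i else 0) fun P hP => ?_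
    rcases hP with ⟨T, hT, hT0, rfl⟩ | ⟨i, hi, rfl⟩ | rfl
    · have hTU : T ∈ U := (hU T).2 ⟨hT, hT0⟩
      rw [← Polynomial.aeval_algHom_apply, map_prod]
      simp only [MvPolynomial.aeval_X]
      rw [Finset.prod_congr rfl (g := F) fun i hi => if_pos (hT hi),
        ← Finset.mul_prod_erase U b hTU, ← mul_smul]
      have h1 : aeval (∏ i ∈ T, F i) (Q T) * (b T * ∏ T ∈ U.erase T, b T) =
          aeval (∏ i ∈ T, F i) (Q T) * b T * (∏ T ∈ U.erase T, b T) := by ring
      rw [h1, mul_smul]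
      exact h.relation T hT0 _
    · rw [MvPolynomial.aeval_X, if_neg hi, zero_smul]
    · rw [map_sub, map_prod, map_pow, map_natCast, sub_smul, sub_eq_zero]
      simp only [MvPolynomial.aeval_X]
      rw [Finset.prod_congr rfl (g := F) fun i hi => if_pos hi, ← h.frobenius]
      have h1 : (∏ T ∈ U, b T) • ε • x = ((∏ i ∈ Sᶜ, F i) * ∏ i ∈ Sᶜ, e i) •
          (((∏ T ∈ U, b T) * ∏ i ∈ S, (1 - e i)) • x) := by
        rw [frob_unit h, ← mul_smul, ← mul_smul]
        congr 1
        rw [hε]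
        ring
      have h2 : (∏ T ∈ U, b T) • ε • x = (∏ i ∈ Sᶜ, e i) •
          (((∏ T ∈ U, b T) * ∏ i ∈ S, (1 - e i)) • x) := by
        rw [h1, frob_unit h]
      have h3 : (∏ i ∈ Sᶜ, F i) • ((∏ T ∈ U, b T) • ε • x) = (∏ T ∈ U, b T) • ε • x := by
        conv_lhs => rw [h2]
        rw [← mul_smul, ← h1]
      rw [← Finset.prod_mul_prod_compl S F, mul_smul (∏ i ∈ S, F i) (∏ i ∈ Sᶜ, F i), h3]
  let N0 : ℕ := ∏ T ∈ U, N T
  have hN00 : 0 < N0 := Finset.prod_pos fun T _ => hN0 T
  obtain ⟨T0, hT0, hTx⟩ := h.quotient_finite N0 hN00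
  refine ((hT0.image fun t => (QuotientAddGroup.mk (ε • t) : Unramified H CH Finset.univ)).image2
      (fun x y => x + y) ((h.torsion_finite m hm0).image fun w =>
        (QuotientAddGroup.mk w : Unramified H CH Finset.univ))).subset ?_
  rintro _ ⟨x, rfl⟩
  obtain ⟨t, ht, y, rfl⟩ := hTx x
  refine ⟨_, ⟨t, ht, rfl⟩, _, ⟨(∏ T ∈ U, b T) • ε • y, hkill y, rfl⟩, ?_⟩
  change (QuotientAddGroup.mk _ : Unramified H CH Finset.univ) + QuotientAddGroup.mk _ =
    QuotientAddGroup.mk (ε • (t + N0 • y))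
  rw [← QuotientAddGroup.mk_add, QuotientAddGroup.eq, smul_add]
  have h1 : -(ε • t + (∏ T ∈ U, b T) • ε • y) + (ε • t + ε • N0 • y) =
      ((∏ T ∈ U, ((N T : R) * ∏ i ∈ T, (1 - e i))) - ∏ T ∈ U, b T) • (ε • y) := by
    rw [Finset.prod_mul_distrib, ← Nat.cast_smul_eq_nsmul R]
    have h2 : ((N0 : ℕ) : R) = ∏ T ∈ U, (N T : R) := by
      simp only [N0]
      push_cast
      rfl
    have h3 : ∀ u v w : H Finset.univ, -(u + v) + (u + w) = w - v := fun u v w => by abel
    have h4 := absorb h S U fun T hT => ((hU T).1 hT).1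
    rw [h2, h3, sub_smul]
    congr 1
    rw [← mul_smul, ← mul_smul]
    congr 1
    rw [hε]
    linear_combination -(∏ T ∈ U, (N T : R)) * (∏ i ∈ Sᶜ, e i) * h4
  rw [h1]
  exact prod_diff h U (fun T hT => hN T ((hU T).1 hT).2) _

/-- **Unramified cohomology of products.** -/
theorem main (h : IsProductTheory q H CH R F e b Q pull restr) :
    Finite (Unramified H CH Finset.univ) ↔
      ∀ S : Finset (Fin n), Linked q Q S → Finite (Unramified H CH S) := by
  classical
  constructor
  · intro hfin S _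
    let f : Unramified H CH S →+ Unramified H CH Finset.univ :=
      QuotientAddGroup.map _ _ (pull S) fun x hx => h.pull_mem S x hx
    refine Finite.of_injective f ?_
    rw [injective_iff_map_eq_zero]
    intro x hx
    obtain ⟨x, rfl⟩ := QuotientAddGroup.mk_surjective x
    have h1 : pull S x ∈ CH Finset.univ := (QuotientAddGroup.eq_zero_iff _).1 hx
    have h2 := h.restr_mem S _ h1
    rw [h.restr_pull] at h2
    exact (QuotientAddGroup.eq_zero_iff _).2 h2
  · intro hfin
    let ε : Finset (Fin n) → R := fun S => (∏ i ∈ S, (1 - e i)) * ∏ i ∈ Sᶜ, e i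
    have hε : ∑ S : Finset (Fin n), ε S = 1 := by
      have h1 := Finset.prod_add (fun i : Fin n => 1 - e i) e Finset.univ
      have h2 : ∏ i : Fin n, ((1 - e i) + e i) = 1 := by simp
      rw [h2] at h1
      rw [h1, Finset.powerset_univ]
      rfl
    have hfinS : ∀ S : Finset (Fin n), (Set.range fun x : H Finset.univ => (QuotientAddGroup.mk
        (ε S • x) : Unramified H CH Finset.univ)).Finite := by
      intro S
      by_cases hS : Linked q Q S
      · have h1 := hfin S hS
        let f : Unramified H CH S →+ Unramified H CH Finset.univ :=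
          QuotientAddGroup.map _ _ (pull S) fun x hx => h.pull_mem S x hx
        refine (Set.finite_range f).subset ?_
        rintro _ ⟨x, rfl⟩
        refine ⟨QuotientAddGroup.mk (restr S ((∏ i ∈ S, (1 - e i)) • x)), ?_⟩
        change (QuotientAddGroup.mk (pull S (restr S ((∏ i ∈ S, (1 - e i)) • x))) :
          Unramified H CH Finset.univ) = QuotientAddGroup.mk (ε S • x)
        rw [h.pull_restr, ← mul_smul, mul_comm]
      · exact finite_not_linked h hS
    have h1 : (Set.univ : Set (Unramified H CH Finset.univ)).Finite := by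
      refine ((Set.Finite.pi fun S : Finset (Fin n) => hfinS S).image
        fun f => ∑ S, f S).subset ?_
      rintro x -
      obtain ⟨x, rfl⟩ := QuotientAddGroup.mk_surjective x
      refine ⟨fun S => QuotientAddGroup.mk (ε S • x), ?_, ?_⟩
      · rw [Set.mem_pi]
        rintro S -
        exact ⟨x, rfl⟩
      · change ∑ S, (QuotientAddGroup.mk' (CH Finset.univ)) (ε S • x) =
          (QuotientAddGroup.mk' (CH Finset.univ)) x
        rw [← map_sum, ← Finset.sum_smul, hε, one_smul]
    exact Set.finite_univ_iff.1 h1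

end

end Pool.Agent.Y128.UN
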